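import Pool.Agent.J4H38.GS.Stm2
import Pool.Agent.H9R3.BZ.F

set_option autoImplicit false

/-! Project GS (helper38), part Z2: the functional equation bound. -/

namespace Pool.Agent.J4H55.GS

open Complex

theorem cos_le (z : ℂ) : ‖Complex.cos z‖ ≤ Real.exp |z.im| := by
  rw [Complex.cos, norm_div, Complex.norm_two, div_le_iff₀ (by norm_num)]
  refine (norm_add_le _ _).trans ?_
  rw [Complex.norm_exp, Complex.norm_exp]
  have e1 : (z * I).re = -z.im := by simp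
  have e2 : (-z * I).re = z.im := by simp
  rw [e1, e2]
  have a1 := Real.exp_le_exp.2 (neg_le_abs z.im)
  have a2 := Real.exp_le_exp.2 (le_abs_self z.im)
  linarith

theorem Gamma_abs {σ : ℝ} (hσ : 1 / 2 ≤ σ) {t : ℝ} (ht : 1 ≤ |t|) :
    ‖Gamma ((σ : ℂ) - t * I)‖ ≤ 4 * (1 + σ) ^ (σ - 1 / 2) * |t| ^ (σ - 1 / 2) * Real.exp (-(Real.pi / 2) * |t|) := by
  rcases le_or_gt 0 t with h | h
  · rw [abs_of_nonneg h] at ht ⊢
    have e : (σ : ℂ) - t * I = (starRingEnd ℂ) ((σ : ℂ) + t * I) := by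
      rw [map_add, map_mul, Complex.conj_ofReal, Complex.conj_ofReal, Complex.conj_I]; ring
    rw [e, Complex.Gamma_conj, Complex.norm_conj]
    exact Pool.Agent.H9R3.BZ.Gamma_upper hσ ht
  · rw [abs_of_neg h] at ht ⊢
    have e : (σ : ℂ) - t * I = (σ : ℂ) + ((-t : ℝ) : ℂ) * I := by push_cast; ring
    rw [e]
    exact Pool.Agent.H9R3.BZ.Gamma_upper hσ ht

theorem t_Z2 : Pool.Agent.J4H38.GS.S_Z2 := by
  intro σ h0 h1
  have hb : (0 : ℝ) ≤ (1 + (1 - σ)) ^ ((1 - σ) - 1 / 2) := Real.rpow_nonneg (by linarith) _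
  refine ⟨8 * (1 + (1 - σ)) ^ ((1 - σ) - 1 / 2), by positivity, ?_⟩
  intro t ht
  have ht0 : 0 < |t| := by linarith
  have hre : ((((1 - σ : ℝ) : ℂ)) - t * I).re = 1 - σ := by simp
  have him : ((((1 - σ : ℝ) : ℂ)) - t * I).im = -t := by simp
  have hfe := riemannZeta_one_sub (s := (((1 - σ : ℝ) : ℂ)) - t * I) (by
    intro n h
    have := congrArg Complex.re h
    rw [hre] at this
    simp at this
    have hn : (0 : ℝ) ≤ n := Nat.cast_nonneg n
    linarith) (by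
    intro h
    have := congrArg Complex.re h
    rw [hre] at this
    simp at this
    linarith)
  have e1 : (1 : ℂ) - ((((1 - σ : ℝ) : ℂ)) - t * I) = σ + t * I := by push_cast; ring
  rw [e1] at hfe
  have e2 : (((1 - σ : ℝ) : ℂ)) - t * I = (starRingEnd ℂ) ((((1 - σ : ℝ) : ℂ)) + t * I) := by
    rw [map_add, map_mul, Complex.conj_ofReal, Complex.conj_ofReal, Complex.conj_I]; ring
  have e3 : ‖riemannZeta ((((1 - σ : ℝ) : ℂ)) - t * I)‖ = ‖riemannZeta ((((1 - σ : ℝ) : ℂ)) + t * I)‖ := by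
    rw [e2, riemannZeta_conj, Complex.norm_conj]
  rw [hfe, norm_mul, norm_mul, norm_mul, norm_mul, e3, Complex.norm_two]
  have g1 := Gamma_abs (σ := 1 - σ) (by linarith) ht
  have g2 : ‖((2 : ℂ) * Real.pi) ^ (-((((1 - σ : ℝ) : ℂ)) - t * I))‖ ≤ 1 := by
    have e4 : ((2 : ℂ) * Real.pi) = ((2 * Real.pi : ℝ) : ℂ) := by push_cast; ring
    rw [e4, Complex.norm_cpow_eq_rpow_re_of_pos (by positivity), Complex.neg_re, hre]
    apply Real.rpow_le_one_of_one_le_of_nonpos _ (by linarith)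
    have := Real.pi_gt_three
    linarith
  have g3 : ‖Complex.cos (Real.pi * ((((1 - σ : ℝ) : ℂ)) - t * I) / 2)‖ ≤ Real.exp (Real.pi / 2 * |t|) := by
    refine (cos_le _).trans (le_of_eq ?_)
    congr 1
    have e5 : (Real.pi * ((((1 - σ : ℝ) : ℂ)) - t * I) / 2) = ((Real.pi / 2 : ℝ) : ℂ) * ((((1 - σ : ℝ) : ℂ)) - t * I) := by
      push_cast; ring
    rw [e5, Complex.im_ofReal_mul, him, abs_mul, abs_neg, abs_of_pos (by positivity)]
  have g4 : |t| ^ ((1 - σ) - 1 / 2) = |t| ^ (1 / 2 - σ) := by congr 1; ring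
  rw [g4] at g1
  have g5 : Real.exp (-(Real.pi / 2) * |t|) * Real.exp (Real.pi / 2 * |t|) = 1 := by
    rw [← Real.exp_add]; simp
  have hz : 0 ≤ ‖riemannZeta ((((1 - σ : ℝ) : ℂ)) + t * I)‖ := norm_nonneg _
  have htp : 0 ≤ |t| ^ (1 / 2 - σ) := Real.rpow_nonneg ht0.le _
  apply mul_le_mul_of_nonneg_right _ hz
  calc 2 * ‖((2 : ℂ) * Real.pi) ^ (-((((1 - σ : ℝ) : ℂ)) - t * I))‖ * ‖Gamma ((((1 - σ : ℝ) : ℂ)) - t * I)‖ *
        ‖Complex.cos (Real.pi * ((((1 - σ : ℝ) : ℂ)) - t * I) / 2)‖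
      ≤ 2 * 1 * (4 * (1 + (1 - σ)) ^ ((1 - σ) - 1 / 2) * |t| ^ (1 / 2 - σ) * Real.exp (-(Real.pi / 2) * |t|)) *
        Real.exp (Real.pi / 2 * |t|) := by
        apply mul_le_mul _ g3 (norm_nonneg _) (by positivity)
        apply mul_le_mul _ g1 (norm_nonneg _) (by norm_num)
        exact mul_le_mul_of_nonneg_left g2 (by norm_num)
    _ = 8 * (1 + (1 - σ)) ^ ((1 - σ) - 1 / 2) * |t| ^ (1 / 2 - σ) * (Real.exp (-(Real.pi / 2) * |t|) * Real.exp (Real.pi / 2 * |t|)) := by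
        ring
    _ = 8 * (1 + (1 - σ)) ^ ((1 - σ) - 1 / 2) * |t| ^ (1 / 2 - σ) := by rw [g5, mul_one]

end Pool.Agent.J4H55.GS
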